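import Mathlib

set_option autoImplicit false

namespace Pool.Agent.Results.MP_96dc1b_co.Counter

open Finset

variable {V : Type} [Fintype V] [DecidableEq V]

/-- `φ` is an `r`-dynamic colouring with `k` colours. -/
def IsDynamic (G : SimpleGraph V) [DecidableRel G.Adj] (r k : ℕ) (φ : V → Fin k) : Prop :=
  (∀ u v, G.Adj u v → φ u ≠ φ v) ∧
    ∀ v, min r (G.degree v) ≤ ((G.neighborFinset v).image φ).card

/-- The `r`-dynamic chromatic number. -/
noncomputable def chiDyn (G : SimpleGraph V) [DecidableRel G.Adj] (r : ℕ) : ℕ :=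
  sInf {k | ∃ φ : V → Fin k, IsDynamic G r k φ}

/-- Treewidth: least `w` such that some tree decomposition has all bags of size at most `w + 1`. -/
noncomputable def tw (G : SimpleGraph V) : ℕ :=
  sInf {w | ∃ (ι : Type) (_ : Fintype ι) (T : SimpleGraph ι) (B : ι → Finset V),
    T.IsTree ∧ (∀ i, (B i).card ≤ w + 1) ∧ (∀ v, ∃ i, v ∈ B i) ∧
    (∀ u v, G.Adj u v → ∃ i, u ∈ B i ∧ v ∈ B i) ∧ ∀ v, (T.induce {i | v ∈ B i}).Connected}

abbrev W (q : ℕ) : Type := (Fin q × Fin q) ⊕ (Fin q × Fin (q ^ 2))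

def R (q : ℕ) : W q → W q → Prop
  | Sum.inl h, Sum.inr x => x.1 = h.1 ∨ x.1 = h.2
  | _, _ => False

def H (q : ℕ) : SimpleGraph (W q) where
  Adj x y := R q x y ∨ R q y x
  symm := ⟨fun _ _ h => h.symm⟩
  loopless := ⟨fun x h => by rcases x with x | x <;> simp [R] at h⟩

theorem tw_le (q : ℕ) : tw (H q) ≤ q ^ 2 := by
  classical
  refine Nat.sInf_le ⟨Option (W q), inferInstance, SimpleGraph.starGraph none,
    fun i => i.toFinset ∪ univ.image Sum.inl, SimpleGraph.isTree_starGraph _, fun i => ?_,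
    fun v => ⟨some v, by simp⟩, fun u v h => ?_, fun v => ?_⟩
  · refine (card_union_le _ _).trans ?_
    have : (univ.image (Sum.inl : _ → W q)).card ≤ q ^ 2 := card_image_le.trans (by simp [sq])
    have : i.toFinset.card ≤ 1 := by cases i <;> simp
    omega
  · rcases u with u | u <;> rcases v with v | v
    · exact ⟨none, by simp, by simp⟩
    · exact ⟨some (Sum.inr v), by simp, by simp⟩
    · exact ⟨some (Sum.inr u), by simp, by simp⟩
    · simp [H, R] at h
  · rcases v with v | v
    · refine SimpleGraph.Connected.of_isUniversal (v := ⟨none, by simp⟩) ?_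
      rintro ⟨w, hw⟩ h
      simpa [Subtype.ext_iff] using h
    · refine SimpleGraph.Connected.of_isUniversal (v := ⟨some (Sum.inr v), by simp⟩) ?_
      rintro ⟨w, hw⟩ h
      exact absurd (Subtype.ext (by simpa [eq_comm] using hw)) h

open Classical in
theorem chi_ge (q : ℕ) : q ^ 3 ≤ chiDyn (H q) (2 * q ^ 2) := by
  have hne : {k | ∃ φ : W q → Fin k, IsDynamic (H q) (2 * q ^ 2) k φ}.Nonempty := by
    refine ⟨_, Fintype.equivFin _, fun u v h e => h.ne ((Fintype.equivFin _).injective e),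
      fun v => ?_⟩
    rw [card_image_of_injective _ (Equiv.injective _)]
    exact min_le_right _ _
  obtain ⟨φ, -, h⟩ := Nat.sInf_mem hne
  have hd : ∀ z : Fin q × Fin q, (H q).degree (Sum.inl z) ≤ 2 * q ^ 2 := by
    intro z
    have : (H q).neighborFinset (Sum.inl z) ⊆
        (univ.image fun s => Sum.inr (z.1, s)) ∪ (univ.image fun s => Sum.inr (z.2, s)) := by
      rintro (w | ⟨a, b⟩) hw <;> simpa [H, R, eq_comm] using hw
    refine (card_le_card this).trans ((card_union_le _ _).trans ?_)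
    rw [two_mul]
    exact Nat.add_le_add (card_image_le.trans (by simp)) (card_image_le.trans (by simp))
  have hinj : Function.Injective fun x : Fin q × Fin (q ^ 2) => φ (Sum.inr x) := by
    intro x y hxy
    have h1 := h (Sum.inl (x.1, y.1))
    rw [min_eq_right (hd _)] at h1
    have h2 := card_image_iff.1 (le_antisymm card_image_le h1)
    simpa using h2 (x₁ := Sum.inr x) (by simp [H, R]) (x₂ := Sum.inr y) (by simp [H, R]) hxy
  have := Fintype.card_le_of_injective _ hinj
  simp only [Fintype.card_prod, Fintype.card_fin] at this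
  rwa [show q ^ 3 = q * q ^ 2 by ring]

theorem result : ¬ ∃ C : ℝ, ∀ (V : Type) [Fintype V] [DecidableEq V] (G : SimpleGraph V)
    [DecidableRel G.Adj] (r : ℕ), 1 ≤ r → (chiDyn G r : ℝ) ≤ C * (tw G + r) := by
  classical
  rintro ⟨C, h⟩
  obtain ⟨q, hq⟩ := exists_nat_gt (3 * |C|)
  have h0 : (0 : ℝ) < q := lt_of_le_of_lt (by positivity) hq
  have h0' : 0 < q := by exact_mod_cast h0
  have h1 := h _ (H q) (2 * q ^ 2) (Nat.succ_le_of_lt (by positivity))
  have h2 : ((q : ℝ)) ^ 3 ≤ chiDyn (H q) (2 * q ^ 2) := by exact_mod_cast chi_ge q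
  have h3 : (tw (H q) : ℝ) ≤ (q : ℝ) ^ 2 := by exact_mod_cast tw_le q
  have h4 : C * ((tw (H q) : ℝ) + (2 * q ^ 2 : ℕ)) ≤ |C| * (3 * q ^ 2) := by
    refine (mul_le_mul_of_nonneg_right (le_abs_self C) (by positivity)).trans
      (mul_le_mul_of_nonneg_left ?_ (abs_nonneg C))
    push_cast; linarith
  have h5 : 3 * |C| * (q : ℝ) ^ 2 < q * q ^ 2 := mul_lt_mul_of_pos_right hq (by positivity)
  nlinarith

end Pool.Agent.Results.MP_96dc1b_co.Counter
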